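import Pool.Agent.W5h51.OS.MainM2
import Pool.Agent.W5h51.OS.Collar2
import Pool.Agent.W5h51.OS.Ess2
import Pool.Agent.W5h51.OS.Nhom2

/-!
# MP_14cec7_gt: maximal 1-systems which do not fill

A 1-system (a set of homotopy classes of essential simple closed curves with pairwise geometric
intersection numbers at most `1`) which contains a separating curve never fills the surface; so an
inclusion-maximal 1-system through a separating curve of the closed surface of genus two does not.
-/

set_option autoImplicit false

open Pool.Agent.W5h51.OS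

namespace Pool.Agent.Results.MP_14cec7_gt.SeparatingCurve

/-- (1) Let `M` be a Hausdorff space (a surface), `P` a closed set of punctures, and `Γ` a 1-system
on `M \ P` which contains the class of a curve `c` null-homologous in `M` (for an orientable
surface: a separating curve). Then `c` can be made disjoint from each curve of `Γ`, and `Γ` does
not fill `M \ P`.
(2) On the closed surface of genus two `t² = 1 + Re z + Re w` in `S¹ × S¹ × ℝ` there is such a
curve `c` and an inclusion-maximal 1-system containing it; it does not fill. -/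
theorem result :
    (∀ (M : Type) [TopologicalSpace M] [T2Space M] (P : Set M), IsClosed P →
      ∀ c : Curve P, NullHomologous c.1 →
        ∀ Γ : Set (CurveClass P), IsOneSystem Γ → cls c ∈ Γ →
          (∀ b ∈ Γ, geomInt (cls c) b = 0) ∧ ¬ Fills Γ) ∧
    ∃ c : Curve (∅ : Set GenusTwo), NullHomologous c.1 ∧
      ∃ Γ : Set (CurveClass (∅ : Set GenusTwo)), cls c ∈ Γ ∧ IsMaximalOneSystem Γ ∧
        (∀ b ∈ Γ, geomInt (cls c) b = 0) ∧ ¬ Fills Γ := by
  have h1 : ∀ (M : Type) [TopologicalSpace M] [T2Space M] (P : Set M), IsClosed P →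
      ∀ c : Curve P, NullHomologous c.1 →
        ∀ Γ : Set (CurveClass P), IsOneSystem Γ → cls c ∈ Γ →
          (∀ b ∈ Γ, geomInt (cls c) b = 0) ∧ ¬ Fills Γ := by
    intro M _ _ P hP c hc Γ hΓ hcΓ
    exact ⟨fun b hb => Fin.geomInt_eq_zero hP c hc b (hΓ _ hcΓ _ hb),
      Fin.not_fills hP c hc Γ hcΓ hΓ⟩
  refine ⟨h1, ?_⟩
  obtain ⟨c, hc⟩ := Fin.exists_curve2 collar2 ess2 nhom2
  obtain ⟨Γ, h2, h3⟩ := Fin.exists_maximal (cls c)
  exact ⟨c, hc, Γ, h2, h3, h1 _ _ isClosed_empty c hc Γ h3.1 h2⟩

end Pool.Agent.Results.MP_14cec7_gt.SeparatingCurve
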